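import Mathlib
import Pool.Agent.Run7.h843.G8

/-!
# The moments of the limit law: Galois numbers
-/

set_option autoImplicit false

namespace Pool.Agent.Run7.h289.MO

open Finset Filter Topology
open Run7.h843.L (gk gk_mem gk_eq Qn Qn_pos Qn_succ Qn_zero)

/-- the Galois numbers: the number of the subspaces of `F_2^r` -/
def Ga : ℕ → ℕ
  | 0 => 1
  | 1 => 2
  | (r + 2) => 2 * Ga (r + 1) + (2 ^ (r + 1) - 1) * Ga r

theorem Ga_two : Ga 2 = 5 := rfl

theorem gk_succ (k : ℕ) : gk (k + 1) * (2 ^ (k + 1) - 1) ^ 2 = 2 * gk k := by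
  rw [gk_eq, gk_eq, Qn_succ]
  have h1 : (0 : ℝ) < Qn k := Qn_pos k
  have h2 : (1 : ℝ) < 2 ^ (k + 1) := one_lt_pow₀ (by norm_num) (by omega)
  have h3 : (1 : ℝ) - (1 / 2) ^ (k + 1) = (2 ^ (k + 1) - 1) / 2 ^ (k + 1) := by
    rw [one_div, inv_pow]
    field_simp
  have h4 : ((2 : ℝ) ^ (k + 1) - 1) ≠ 0 := by linarith
  have h5 : (2 : ℝ) ^ ((k + 1) ^ 2) = 2 ^ (k ^ 2) * 2 ^ (k + 1) * 2 ^ (k + 1) / 2 := by
    have e : (k + 1) ^ 2 + 1 = k ^ 2 + (k + 1) + (k + 1) := by ring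
    have e2 : (2 : ℝ) ^ ((k + 1) ^ 2) * 2 = 2 ^ (k ^ 2) * 2 ^ (k + 1) * 2 ^ (k + 1) := by
      rw [← pow_succ, e, pow_add, pow_add]
    linarith
  rw [h3, h5]
  have h6 : (2 : ℝ) ^ (k + 1) ≠ 0 := by positivity
  have h7 : (2 : ℝ) ^ (k ^ 2) ≠ 0 := by positivity
  have h8 : (Qn k : ℝ) ≠ 0 := h1.ne'
  field_simp

theorem sm_gk (r : ℕ) : Summable fun k : ℕ => (2 : ℝ) ^ (r * k) * gk k := by
  refine summable_of_ratio_norm_eventually_le (r := 1 / 2) (by norm_num) ?_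
  filter_upwards [eventually_ge_atTop (r + 2)] with k hk
  have h0 : 0 ≤ gk k := (gk_mem k).1
  have h0' : 0 ≤ gk (k + 1) := (gk_mem (k + 1)).1
  rw [Real.norm_of_nonneg (by positivity), Real.norm_of_nonneg (by positivity)]
  have h1 := gk_succ k
  have h2 : (2 : ℝ) ^ (r + 2) ≤ (2 ^ (k + 1) - 1) ^ 2 := by
    have h3 : (1 : ℝ) ≤ 2 ^ k := one_le_pow₀ (by norm_num)
    have h4 : (2 : ℝ) ^ k ≤ 2 ^ (k + 1) - 1 := by
      rw [pow_succ]
      linarith
    calc (2 : ℝ) ^ (r + 2) ≤ 2 ^ k := pow_le_pow_right₀ (by norm_num) hk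
      _ = 2 ^ k * 1 := (mul_one _).symm
      _ ≤ 2 ^ k * 2 ^ k := mul_le_mul_of_nonneg_left h3 (by positivity)
      _ = (2 ^ k) ^ 2 := (pow_two _).symm
      _ ≤ _ := pow_le_pow_left₀ (by positivity) h4 2
  have h5 : gk (k + 1) * 2 ^ (r + 2) ≤ 2 * gk k := by
    rw [← h1]
    exact mul_le_mul_of_nonneg_left h2 h0'
  have e1 : (2 : ℝ) ^ (r * (k + 1)) = 2 ^ (r * k) * 2 ^ r := by rw [mul_add, mul_one, pow_add]
  have e2 : (2 : ℝ) ^ (r + 2) = 2 ^ r * 4 := by
    rw [pow_add]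
    norm_num
  rw [e2] at h5
  rw [e1]
  have h6 : (0 : ℝ) ≤ 2 ^ (r * k) := by positivity
  nlinarith

theorem sm_inv : Summable fun k : ℕ => (1 / 2 : ℝ) ^ k * gk k := by
  refine Summable.of_nonneg_of_le (fun k => mul_nonneg (by positivity) (gk_mem k).1) (fun k => ?_)
    (sm_gk 0)
  have h1 : (1 / 2 : ℝ) ^ k ≤ 1 := pow_le_one₀ (by norm_num) (by norm_num)
  rw [zero_mul, pow_zero]
  exact mul_le_mul_of_nonneg_right h1 (gk_mem k).1

/-- **the moments** -/
theorem hasSum_Ga (r : ℕ) : HasSum (fun k : ℕ => (2 : ℝ) ^ (r * k) * gk k) (Ga r) := by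
  induction r using Nat.strongRecOn with
  | _ r ih =>
    match r with
    | 0 =>
      have h := Run7.h843.L.gk_hasSum
      have e : (fun k : ℕ => (2 : ℝ) ^ (0 * k) * gk k) = gk := by
        funext k
        rw [zero_mul, pow_zero, one_mul]
      rw [e]
      simpa [Ga] using h
    | 1 =>
      have h0 := Run7.h843.L.gk_hasSum
      have hs := sm_inv.hasSum
      set T := ∑' k : ℕ, (1 / 2 : ℝ) ^ k * gk k with hT
      have h1 := (sm_gk 1).hasSum
      set U := ∑' k : ℕ, (2 : ℝ) ^ (1 * k) * gk k with hU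
      -- the shifted sum
      have h2 : HasSum (fun k : ℕ => (2 : ℝ) ^ (1 * k) * gk k - 2 * gk k + (1 / 2 : ℝ) ^ k * gk k)
          (U - 2 * 1 + T) := (h1.sub (h0.mul_left 2)).add hs
      have h3 : HasSum (fun k : ℕ => (2 : ℝ) ^ (1 * (k + 1)) * gk (k + 1) - 2 * gk (k + 1) +
          (1 / 2 : ℝ) ^ (k + 1) * gk (k + 1)) T := by
        have e : (fun k : ℕ => (2 : ℝ) ^ (1 * (k + 1)) * gk (k + 1) - 2 * gk (k + 1) +
          (1 / 2 : ℝ) ^ (k + 1) * gk (k + 1)) = fun k : ℕ => (1 / 2 : ℝ) ^ k * gk k := by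
          funext k
          have h4 := gk_succ k
          have h5 : (1 / 2 : ℝ) ^ k = 2 * (1 / 2) ^ (k + 1) := by
            rw [pow_succ]; ring
          have h6 : (2 : ℝ) ^ (k + 1) * (1 / 2) ^ (k + 1) = 1 := by
            rw [← mul_pow]; norm_num
          rw [one_mul, h5]
          calc (2 : ℝ) ^ (k + 1) * gk (k + 1) - 2 * gk (k + 1) + (1 / 2 : ℝ) ^ (k + 1) * gk (k + 1)
              = (1 / 2 : ℝ) ^ (k + 1) * (gk (k + 1) * (2 ^ (k + 1) - 1) ^ 2) := by
                have e1 : (2 : ℝ) ^ (k + 1) * gk (k + 1) =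
                    (2 ^ (k + 1) * (1 / 2) ^ (k + 1)) * 2 ^ (k + 1) * gk (k + 1) := by
                  rw [h6, one_mul]
                have e2 : 2 * gk (k + 1) = 2 * (2 ^ (k + 1) * (1 / 2) ^ (k + 1)) * gk (k + 1) := by
                  rw [h6, mul_one]
                rw [e1, e2]
                ring
            _ = (1 / 2 : ℝ) ^ (k + 1) * (2 * gk k) := by rw [h4]
            _ = _ := by ring
        rw [e]
        exact hs
      have h4 := (hasSum_nat_add_iff' (f := fun k : ℕ => (2 : ℝ) ^ (1 * k) * gk k - 2 * gk k +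
        (1 / 2 : ℝ) ^ k * gk k) 1).2 h2
      have h5 := h3.unique h4
      have h6 : U = 2 := by
        rw [sum_range_one, mul_zero, pow_zero, pow_zero] at h5
        linarith
      rw [h6] at h1
      have e : ((Ga 1 : ℕ) : ℝ) = 2 := by norm_num [Ga]
      rw [e]
      exact h1
    | (r + 2) =>
      have h0 := ih r (by omega)
      have h1 := ih (r + 1) (by omega)
      have h2 := (sm_gk (r + 2)).hasSum
      set U := ∑' k : ℕ, (2 : ℝ) ^ ((r + 2) * k) * gk k with hU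
      have h3 : HasSum (fun k : ℕ => (2 : ℝ) ^ ((r + 2) * k) * gk k -
          2 * ((2 : ℝ) ^ ((r + 1) * k) * gk k) + (2 : ℝ) ^ (r * k) * gk k)
          (U - 2 * (Ga (r + 1) : ℝ) + (Ga r : ℝ)) := (h2.sub (h1.mul_left 2)).add h0
      have h4 : HasSum (fun k : ℕ => (2 : ℝ) ^ ((r + 2) * (k + 1)) * gk (k + 1) -
          2 * ((2 : ℝ) ^ ((r + 1) * (k + 1)) * gk (k + 1)) + (2 : ℝ) ^ (r * (k + 1)) * gk (k + 1))
          (2 ^ (r + 1) * (Ga r : ℝ)) := by
        have e : (fun k : ℕ => (2 : ℝ) ^ ((r + 2) * (k + 1)) * gk (k + 1) -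
          2 * ((2 : ℝ) ^ ((r + 1) * (k + 1)) * gk (k + 1)) +
          (2 : ℝ) ^ (r * (k + 1)) * gk (k + 1)) =
            fun k : ℕ => 2 ^ (r + 1) * ((2 : ℝ) ^ (r * k) * gk k) := by
          funext k
          have h5 := gk_succ k
          have e1 : (2 : ℝ) ^ ((r + 2) * (k + 1)) =
              2 ^ (r * (k + 1)) * (2 ^ (k + 1) * 2 ^ (k + 1)) := by
            rw [← pow_add, ← pow_add]
            congr 1
            ring
          have e2 : (2 : ℝ) ^ ((r + 1) * (k + 1)) = 2 ^ (r * (k + 1)) * 2 ^ (k + 1) := by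
            rw [← pow_add]
            congr 1
            ring
          have e3 : (2 : ℝ) ^ (r * (k + 1)) = 2 ^ r * 2 ^ (r * k) := by
            rw [← pow_add]
            congr 1
            ring
          rw [e1, e2]
          calc (2 : ℝ) ^ (r * (k + 1)) * (2 ^ (k + 1) * 2 ^ (k + 1)) * gk (k + 1) -
                2 * (2 ^ (r * (k + 1)) * 2 ^ (k + 1) * gk (k + 1)) +
                2 ^ (r * (k + 1)) * gk (k + 1)
              = 2 ^ (r * (k + 1)) * (gk (k + 1) * (2 ^ (k + 1) - 1) ^ 2) := by ring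
            _ = 2 ^ r * 2 ^ (r * k) * (2 * gk k) := by rw [h5, e3]
            _ = _ := by ring
        rw [e]
        exact h0.mul_left _
      have h5 := (hasSum_nat_add_iff' (f := fun k : ℕ => (2 : ℝ) ^ ((r + 2) * k) * gk k -
          2 * ((2 : ℝ) ^ ((r + 1) * k) * gk k) + (2 : ℝ) ^ (r * k) * gk k) 1).2 h3
      have h6 := h4.unique h5
      have h7 : U = 2 * (Ga (r + 1) : ℝ) + (2 ^ (r + 1) - 1) * (Ga r : ℝ) := by
        rw [sum_range_one, mul_zero, mul_zero, mul_zero, pow_zero] at h6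
        linarith
      have e : ((Ga (r + 2) : ℕ) : ℝ) = 2 * (Ga (r + 1) : ℝ) + (2 ^ (r + 1) - 1) * (Ga r : ℝ) := by
        have h8 : 1 ≤ 2 ^ (r + 1) := Nat.one_le_pow _ _ (by norm_num)
        have h9 : Ga (r + 2) = 2 * Ga (r + 1) + (2 ^ (r + 1) - 1) * Ga r := rfl
        rw [h9]
        push_cast [Nat.cast_sub h8]
        ring
      rw [e, ← h7]
      exact h2

end Pool.Agent.Run7.h289.MO
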