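import Mathlib
import Pool.Agent.Run7.h843.G8
import Pool.Agent.Run7.h69.RK

/-!
# The number of factorizations and the local counts of the moment method
-/

set_option autoImplicit false

namespace Pool.Agent.Run7.h289.MO

open Finset
open Pool.Agent.Run7.h843.G (Nf)
open Pool.Agent.W262.RK (NL LL dv sgn sg0)

/-- the symbol at `p` -/
def fp (n p q : ℕ) : ℤ := if q = p then jacobiSym ((n / p : ℕ) : ℤ) p else jacobiSym q p

/-- the sets of prime factors with the conditions at the primes of `P` -/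
noncomputable def Hs (n : ℕ) (S P : Finset ℕ) : Finset (Finset ℕ) :=
  S.powerset.filter fun B => ∀ p ∈ P, ∏ q ∈ B, fp n p q = 1

theorem sq_one {n p q : ℕ} (hn : Squarefree n) (hp : p ∈ n.primeFactors)
    (hq : q ∈ n.primeFactors) : fp n p q ^ 2 = 1 := by
  have hpp := Nat.prime_of_mem_primeFactors hp
  have hqp := Nat.prime_of_mem_primeFactors hq
  unfold fp
  split_ifs with h
  · have h1 : p * (n / p) = n := Nat.mul_div_cancel' (Nat.dvd_of_mem_primeFactors hp)
    have h2 : p.Coprime (n / p) := by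
      rw [← h1] at hn
      exact (Nat.squarefree_mul_iff.1 hn).1
    exact jacobiSym.sq_one h2.symm
  · have h2 : q.Coprime p := (Nat.coprime_primes hqp hpp).2 h
    exact jacobiSym.sq_one h2

theorem prod_symmDiff {f : ℕ → ℤ} {B C : Finset ℕ} (h : ∀ q ∈ B ∩ C, f q ^ 2 = 1) :
    ∏ q ∈ symmDiff B C, f q = (∏ q ∈ B, f q) * ∏ q ∈ C, f q := by
  have h1 := prod_inter_mul_prod_sdiff B C f
  have h2 := prod_inter_mul_prod_sdiff C B f
  have h3 : ∏ q ∈ symmDiff B C, f q = (∏ q ∈ B \ C, f q) * ∏ q ∈ C \ B, f q := by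
    rw [symmDiff_def]
    refine prod_union ?_
    rw [disjoint_left]
    intro q h4 h5
    exact (mem_sdiff.1 h4).2 (mem_sdiff.1 h5).1
  have h4 : (∏ q ∈ B ∩ C, f q) ^ 2 = 1 := by
    rw [← prod_pow]
    exact prod_eq_one h
  rw [h3, ← h1, ← h2, inter_comm C B]
  calc (∏ q ∈ B \ C, f q) * ∏ q ∈ C \ B, f q
      = (∏ q ∈ B ∩ C, f q) ^ 2 * ((∏ q ∈ B \ C, f q) * ∏ q ∈ C \ B, f q) := by rw [h4, one_mul]
    _ = _ := by ring

theorem card_H {n : ℕ} (hn : Squarefree n) {S T P : Finset ℕ} (_hd : Disjoint S T)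
    (hS : S ⊆ n.primeFactors) (hT : T ⊆ n.primeFactors) (hP : P ⊆ n.primeFactors) :
    (Hs n (S ∪ T) P).card ≤ (Hs n S P).card * 2 ^ T.card := by
  classical
  have h1 : (Hs n (S ∪ T) P).card ≤
      (Hs n S P).card * ((Hs n (S ∪ T) P).image fun B => B ∩ T).card := by
    refine card_le_mul_card_image _ _ fun B' hB' => ?_
    obtain ⟨B0, hB0, hB0'⟩ := mem_image.1 hB'
    refine card_le_card_of_injOn (fun B => symmDiff B B0) (fun B hB => ?_) fun B _ C _ h => ?_
    · rw [mem_coe, mem_filter] at hB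
      obtain ⟨hB, hBB⟩ := hB
      unfold Hs at hB hB0 ⊢
      rw [mem_filter, mem_powerset] at hB hB0
      rw [mem_coe, mem_filter, mem_powerset]
      refine ⟨fun q hq => ?_, fun p hp => ?_⟩
      · have hq' : q ∈ S ∪ T := by
          rcases mem_symmDiff.1 hq with h | h
          · exact hB.1 h.1
          · exact hB0.1 h.1
        rcases mem_union.1 hq' with h | h
        · exact h
        · exfalso
          have e : q ∈ B ↔ q ∈ B0 := by
            have e1 : q ∈ B ∩ T ↔ q ∈ B0 ∩ T := by rw [hBB, hB0']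
            rw [mem_inter, mem_inter] at e1
            tauto
          rcases mem_symmDiff.1 hq with h' | h' <;> tauto
      · rw [prod_symmDiff fun q hq => ?_, hB.2 p hp, hB0.2 p hp, one_mul]
        have hq' := hB.1 (mem_inter.1 hq).1
        refine sq_one hn (hP hp) ?_
        rcases mem_union.1 hq' with h | h
        · exact hS h
        · exact hT h
    · exact symmDiff_left_injective B0 h
  refine h1.trans (Nat.mul_le_mul_left _ ?_)
  rw [← card_powerset]
  refine card_le_card fun B hB => ?_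
  obtain ⟨B0, -, rfl⟩ := mem_image.1 hB
  exact mem_powerset.2 inter_subset_right

theorem js_prod (p : ℕ) (C : Finset ℕ) :
    jacobiSym ((∏ q ∈ C, q : ℕ) : ℤ) p = ∏ q ∈ C, jacobiSym (q : ℤ) p := by
  classical
  induction C using Finset.induction_on with
  | empty => simp
  | insert q C hq ih => rw [prod_insert hq, prod_insert hq, Nat.cast_mul, jacobiSym.mul_left, ih]

/-- the symbols of the divisors -/
theorem prod_fp {n p : ℕ} (hp : p.Prime) {B : Finset ℕ} (hB : ∀ q ∈ B, q.Prime) :
    (p ∈ B → ∏ q ∈ B, fp n p q =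
      jacobiSym ((n / p : ℕ) : ℤ) p * jacobiSym (((∏ q ∈ B, q) / p : ℕ) : ℤ) p) ∧
    (p ∉ B → ∏ q ∈ B, fp n p q = jacobiSym ((∏ q ∈ B, q : ℕ) : ℤ) p) := by
  have key : ∀ C : Finset ℕ, p ∉ C → ∏ q ∈ C, fp n p q = jacobiSym ((∏ q ∈ C, q : ℕ) : ℤ) p := by
    intro C hC
    rw [js_prod]
    refine prod_congr rfl fun q hq => ?_
    unfold fp
    rw [if_neg]
    rintro rfl
    exact hC hq
  refine ⟨fun h => ?_, key B⟩
  rw [← mul_prod_erase B _ h, key _ (notMem_erase p B)]
  have e1 : (∏ q ∈ B, q) / p = ∏ q ∈ B.erase p, q := by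
    rw [← mul_prod_erase B _ h, Nat.mul_div_cancel_left _ hp.pos]
  rw [e1]
  congr 1
  unfold fp
  rw [if_pos rfl]

theorem Nf_le {n : ℕ} (hn : Squarefree n) :
    Nf n ≤ (Hs n n.primeFactors n.primeFactors).card := by
  classical
  have hn0 := hn.ne_zero
  unfold Nf
  rw [← Nat.card_eq_finsetCard]
  refine Nat.card_le_card_of_injective (fun s => ⟨s.1.1.primeFactors, ?_⟩) ?_
  · obtain ⟨⟨b, c⟩, h1, h2, h3⟩ := s
    simp only at h1 h2 h3 ⊢
    have hbn : b ∣ n := ⟨c, h1.symm⟩
    have hb : Squarefree b := hn.squarefree_of_dvd hbn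
    unfold Hs
    rw [mem_filter, mem_powerset]
    refine ⟨Nat.primeFactors_mono hbn hn0, fun p hp => ?_⟩
    have hpp := Nat.prime_of_mem_primeFactors hp
    have hpr := prod_fp (n := n) hpp (B := b.primeFactors)
      fun q hq => Nat.prime_of_mem_primeFactors hq
    rw [Nat.prod_primeFactors_of_squarefree hb] at hpr
    by_cases hpb : p ∈ b.primeFactors
    · rw [hpr.1 hpb]
      obtain ⟨b', rfl⟩ := Nat.dvd_of_mem_primeFactors hpb
      have e1 : n / p = b' * c := by
        rw [← h1, mul_assoc, Nat.mul_div_cancel_left _ hpp.pos]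
      have e2 : p * b' / p = b' := Nat.mul_div_cancel_left _ hpp.pos
      have hcop : b'.Coprime p := ((Nat.squarefree_mul_iff.1 hb).1).symm
      rw [e1, e2, Nat.cast_mul, jacobiSym.mul_left, h3 p hpb, mul_one, ← pow_two]
      exact jacobiSym.sq_one hcop
    · rw [hpr.2 hpb]
      refine h2 p ?_
      have hd : p ∣ b * c := by
        rw [h1]
        exact Nat.dvd_of_mem_primeFactors hp
      rcases (hpp.dvd_mul).1 hd with h | h
      · exact absurd (Nat.mem_primeFactors.2 ⟨hpp, h, hb.ne_zero⟩) hpb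
      · refine Nat.mem_primeFactors.2 ⟨hpp, h, ?_⟩
        rintro rfl
        exact hn0 (by rw [← h1, mul_zero])
  · rintro ⟨⟨b, c⟩, h1, h2⟩ ⟨⟨b', c'⟩, h1', h2'⟩ h
    simp only [Subtype.mk.injEq] at h h1 h1' ⊢
    have hb : Squarefree b := hn.squarefree_of_dvd ⟨c, h1.symm⟩
    have hb' : Squarefree b' := hn.squarefree_of_dvd ⟨c', h1'.symm⟩
    have e : b = b' := by
      rw [← Nat.prod_primeFactors_of_squarefree hb, h, Nat.prod_primeFactors_of_squarefree hb']
    subst e
    have h3 : b * c = b * c' := h1.trans h1'.symm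
    rw [Nat.eq_of_mul_eq_mul_left (Nat.pos_of_ne_zero hb.ne_zero) h3]

/-- the signs -/
noncomputable def Eg (n s : ℕ) : Finset ℕ :=
  s.primeFactors.filter fun p => jacobiSym ((n / p : ℕ) : ℤ) p = -1

theorem NL_ge {n s : ℕ} (hs : Squarefree s) (hsn : s ∣ n) (hodd : n % 2 = 1) :
    (Hs n s.primeFactors s.primeFactors).card ≤
      NL s (Run7.h69.LE (Run7.h69.RK.kp (-1) (-4)) (Eg n s)) := by
  classical
  unfold NL
  refine card_le_card_of_injOn (fun B => (1, ∏ q ∈ B, q)) (fun B hB => ?_) fun B hB C hC h => ?_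
  · unfold Hs at hB
    rw [mem_coe, mem_filter, mem_powerset] at hB
    have hBp : ∀ q ∈ B, q.Prime := fun q hq => Nat.prime_of_mem_primeFactors (hB.1 hq)
    have hds : ∏ q ∈ B, q ∣ s := by
      have h1 := prod_dvd_prod_of_subset B s.primeFactors (fun q => q) hB.1
      rwa [Nat.prod_primeFactors_of_squarefree hs] at h1
    rw [mem_coe, mem_filter, mem_product, Nat.mem_divisors, Nat.mem_divisors]
    refine ⟨⟨⟨one_dvd _, hs.ne_zero⟩, hds, hs.ne_zero⟩, fun p hp => ?_⟩
    have hpp := Nat.prime_of_mem_primeFactors hp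
    have hps := Nat.dvd_of_mem_primeFactors hp
    have hpn : p ∣ n := hps.trans hsn
    have hp2 : p ≠ 2 := by
      rintro rfl
      omega
    have hpi : ((p : ℤ)) ≠ 0 := by exact_mod_cast hpp.ne_zero
    set d := ∏ q ∈ B, q with hd
    have hd0 : d ≠ 0 := fun h => hs.ne_zero (Nat.eq_zero_of_zero_dvd (h ▸ hds))
    have hmem : p ∈ B ↔ p ∣ d := by
      constructor
      · exact fun h => dvd_prod_of_mem (fun q => q) h
      · intro h
        obtain ⟨q, hq, hpq⟩ := (hpp.prime.dvd_finsetProd_iff _).1 h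
        rwa [(Nat.prime_dvd_prime_iff_eq hpp (hBp q hq)).1 hpq]
    have h1 := hB.2 p hp
    have hpr := prod_fp (n := n) hpp hBp
    rw [← hd] at hpr
    have hodd' : Odd p := hpp.odd_of_ne_two hp2
    have e4 : sg0 p 4 = false := by
      unfold sg0
      have : jacobiSym 4 p = 1 := by
        have h2 : (4 : ℤ) = 2 ^ 2 := by norm_num
        rw [h2]
        refine jacobiSym.sq_one' ?_
        have h3 : Nat.Coprime 2 p := (Nat.coprime_primes Nat.prime_two hpp).2 (Ne.symm hp2)
        exact_mod_cast h3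
      rw [this]
      decide
    have e1 : sg0 p 1 = false := by
      unfold sg0
      rw [jacobiSym.one_left]
      decide
    have hv : dv p ((1 : ℕ) : ℤ) = false := by
      unfold dv
      rw [decide_eq_false_iff_not, Int.natCast_dvd_natCast]
      exact fun h => hpp.one_lt.ne' (Nat.dvd_one.1 h)
    have hh : sgn p ((1 : ℕ) : ℤ) = false := by
      unfold sgn
      have : (((1 : ℕ) : ℤ) / (Int.gcd ((1 : ℕ) : ℤ) p : ℤ)) = 1 := by simp
      rw [this]
      exact e1
    have hw : dv p (d : ℤ) = decide (p ∈ B) := by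
      unfold dv
      rw [decide_eq_decide, Int.natCast_dvd_natCast, hmem]
    have hg : sgn p (d : ℤ) = (decide (p ∈ B) && decide (p ∈ Eg n s)) := by
      unfold sgn
      by_cases hpB : p ∈ B
      · obtain ⟨d', hd'⟩ := hmem.1 hpB
        have g1 : (Int.gcd (d : ℤ) p : ℤ) = p := by
          rw [Int.gcd_natCast_natCast, Nat.gcd_eq_right (hmem.1 hpB)]
        rw [g1, ← Int.natCast_div]
        unfold sg0
        rw [decide_eq_true hpB, Bool.true_and, decide_eq_decide]
        have h2 := hpr.1 hpB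
        rw [h1] at h2
        have h3 : p ∈ Eg n s ↔ jacobiSym ((n / p : ℕ) : ℤ) p = -1 := by
          unfold Eg
          rw [mem_filter]
          exact ⟨fun h => h.2, fun h => ⟨hp, h⟩⟩
        rw [h3]
        constructor
        · intro h4
          rw [h4] at h2
          linarith
        · intro h4
          rw [h4] at h2
          linarith
      · have g1 : (Int.gcd (d : ℤ) p : ℤ) = 1 := by
          rw [Int.gcd_natCast_natCast]
          have : Nat.Coprime d p := ((Nat.Prime.coprime_iff_not_dvd hpp).2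
            (fun h => hpB (hmem.2 h))).symm
          exact_mod_cast this
        rw [g1, Int.ediv_one]
        unfold sg0
        rw [decide_eq_false hpB, Bool.false_and, decide_eq_false_iff_not, ← hpr.2 hpB, h1]
        norm_num
    unfold Run7.h69.LE LL
    simp only
    rw [if_neg (by decide), if_neg (by decide), if_neg (by decide), Run7.h69.RK.kp0,
      Run7.h69.RK.kp1, Run7.h69.RK.kp2]
    rw [hv, hh, hw, hg]
    have e4' : sg0 p (-1 * -4) = false := by
      norm_num
      exact e4
    have e1' : sg0 p (- -1) = false := by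
      rw [neg_neg]
      exact e1
    rw [e4', e1']
    simp
  · have hB' := (mem_filter.1 (mem_coe.1 hB)).1
    have hC' := (mem_filter.1 (mem_coe.1 hC)).1
    rw [mem_powerset] at hB' hC'
    simp only [Prod.mk.injEq, true_and] at h
    have e1 : (∏ q ∈ B, q).primeFactors = B :=
      Nat.primeFactors_prod fun q hq => Nat.prime_of_mem_primeFactors (hB' hq)
    have e2 : (∏ q ∈ C, q).primeFactors = C :=
      Nat.primeFactors_prod fun q hq => Nat.prime_of_mem_primeFactors (hC' hq)
    rw [← e1, h, e2]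

/-- **the bound** -/
theorem Nf_NL {n s : ℕ} (hn : Squarefree n) (hsn : s ∣ n) (hodd : n % 2 = 1) :
    Nf n ≤ 2 ^ (n.primeFactors \ s.primeFactors).card *
      NL s (Run7.h69.LE (Run7.h69.RK.kp (-1) (-4)) (Eg n s)) := by
  have hs := hn.squarefree_of_dvd hsn
  have hsub : s.primeFactors ⊆ n.primeFactors := Nat.primeFactors_mono hsn hn.ne_zero
  have h1 := Nf_le hn
  have h2 : (Hs n n.primeFactors n.primeFactors).card ≤
      (Hs n n.primeFactors s.primeFactors).card := by
    refine card_le_card fun B hB => ?_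
    unfold Hs at hB ⊢
    rw [mem_filter] at hB ⊢
    exact ⟨hB.1, fun p hp => hB.2 p (hsub hp)⟩
  have h3 := card_H (P := s.primeFactors) hn
    (disjoint_sdiff (s := s.primeFactors) (t := n.primeFactors)) hsub sdiff_subset hsub
  rw [union_sdiff_of_subset hsub] at h3
  calc Nf n ≤ _ := h1.trans (h2.trans h3)
    _ ≤ NL s (Run7.h69.LE (Run7.h69.RK.kp (-1) (-4)) (Eg n s)) *
        2 ^ (n.primeFactors \ s.primeFactors).card := Nat.mul_le_mul_right _ (NL_ge hs hsn hodd)
    _ = _ := mul_comm _ _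

end Pool.Agent.Run7.h289.MO
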