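import Mathlib
import Pool.Agent.Run7.h289.MO.Em
import Pool.Agent.Run7.h69.UT2

/-!
# The moments of the number of factorizations
-/

set_option autoImplicit false
set_option linter.unusedSectionVars false

namespace Pool.Agent.Run7.h289.MO

open Finset Polynomial
open Pool.Agent.W262.RK hiding lk ff s1 s2
open Run7.h69
open Pool.Agent.Run7.h843.G (Nf)

/-- the quantity to be averaged -/
noncomputable def Rt (t : ℤ) : ℝ := by
  classical
  exact if Squarefree t.natAbs ∧ t.natAbs % 2 = 1 ∧ 0 < t then (Nf t.natAbs : ℝ) else 0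

theorem Rt_nonneg (t : ℤ) : 0 ≤ Rt t := by
  unfold Rt
  split_ifs
  · exact Nat.cast_nonneg _
  · exact le_rfl

/-- the bad primes -/
theorem bad {z y N : ℕ} {t : ℤ} (hsq : Squarefree t.natAbs) (hN : t.natAbs < (y + 1) ^ N) :
    (t.natAbs.primeFactors \ (t1 X z y t).primeFactors).card ≤ z + N := by
  set n := t.natAbs with hn
  have hsub : n.primeFactors \ (t1 X z y t).primeFactors ⊆
      (Icc 1 z) ∪ n.primeFactors.filter (y < ·) := by
    intro q hq
    rw [mem_sdiff] at hq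
    have hp := Nat.prime_of_mem_primeFactors hq.1
    have hdv := Nat.dvd_of_mem_primeFactors hq.1
    rw [mem_union, mem_Icc]
    rcases Nat.lt_or_ge z q with h | h
    swap
    · exact Or.inl ⟨hp.one_lt.le, h⟩
    · rcases Nat.lt_or_ge y q with hyq | hyq
      · right
        rw [mem_filter]
        exact ⟨hq.1, hyq⟩
      · exfalso
        refine hq.2 ?_
        rw [Nat.mem_primeFactors]
        refine ⟨hp, (CN.dvd_t1 hp).2 ⟨mem_PS.2 ⟨⟨h, hyq⟩, hp⟩, ?_, ?_⟩,
          Nat.one_le_iff_ne_zero.1 (NX.dpos (NX.t1_dvd z y t))⟩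
        · rw [eval_X]
          exact Int.natCast_dvd.2 hdv
        · rw [eval_X]
          intro h2
          have h3 : q * q ∣ n := by
            have h4 : ((q * q : ℕ) : ℤ) ∣ t := by
              push_cast
              rw [← pow_two]
              exact h2
            exact Int.natCast_dvd.1 h4
          exact hp.one_lt.ne' (Nat.isUnit_iff.1 (hsq q h3))
  have hone : (n.primeFactors.filter (y < ·)).card ≤ N := by
    set S := n.primeFactors.filter (y < ·) with hS
    have h1 : (y + 1) ^ S.card ≤ ∏ q ∈ S, q :=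
      Finset.pow_card_le_prod _ _ _ (fun q hq => by
        have := (mem_filter.1 hq).2
        omega)
    have h2 : ∏ q ∈ S, q ∣ n :=
      (prod_dvd_prod_of_subset _ _ _ (filter_subset _ _)).trans (Nat.prod_primeFactors_dvd _)
    have h3 : ∏ q ∈ S, q ≤ n := Nat.le_of_dvd (Nat.pos_of_ne_zero hsq.ne_zero) h2
    have h4 : (y + 1) ^ S.card < (y + 1) ^ N := (h1.trans h3).trans_lt hN
    rcases Nat.eq_zero_or_pos y with hy | hy
    · rw [hy] at h4
      simp at h4
    · exact ((Nat.pow_lt_pow_iff_right (by omega)).1 h4).le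
  refine (card_le_card hsub).trans ((card_union_le _ _).trans (add_le_add ?_ hone))
  simp

/-- the local count -/
theorem rank {z y N : ℕ} {t : ℤ} (hsq : Squarefree t.natAbs) (hodd : t.natAbs % 2 = 1)
    (ht : 0 < t) (hN : t.natAbs < (y + 1) ^ N) :
    Nf t.natAbs ≤ 4 ^ (z + 2) * 4 ^ N * 4 ^ ((t2 X z y t).primeFactors.card) *
      NL (t1 X z y t) (Run7.h69.LE (RK.kp (-1) (-4)) (ng X t (t1 X z y t))) := by
  set n := t.natAbs with hn
  set s := t1 X z y t with hs
  have htn : (n : ℤ) = t := Int.natAbs_of_nonneg ht.le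
  have hssq : Squarefree s := (PP_squarefree z y).squarefree_of_dvd (NX.t1_dvd z y t)
  have hsn : s ∣ n := by
    rw [← Nat.prod_primeFactors_of_squarefree hssq, ← Nat.prod_primeFactors_of_squarefree hsq]
    refine prod_dvd_prod_of_subset _ _ _ fun p hp => ?_
    have hpp := Nat.prime_of_mem_primeFactors hp
    have h1 := ((CN.dvd_t1 hpp).1 (Nat.dvd_of_mem_primeFactors hp)).2.1
    rw [eval_X] at h1
    exact Nat.mem_primeFactors.2 ⟨hpp, Int.natCast_dvd.1 h1, hsq.ne_zero⟩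
  have hE : Eg n s = ng X t s := by
    unfold Eg ng
    refine filter_congr fun p _ => ?_
    rw [eval_X, ← htn, Int.natCast_div]
  have h1 := Nf_NL hsq hsn hodd
  rw [hE] at h1
  refine h1.trans (Nat.mul_le_mul_right _ ?_)
  have h2 := bad (z := z) (y := y) (N := N) hsq hN
  calc 2 ^ (n.primeFactors \ s.primeFactors).card ≤ 2 ^ (z + N) :=
        Nat.pow_le_pow_right (by norm_num) h2
    _ ≤ 4 ^ (z + N) := Nat.pow_le_pow_left (by norm_num) _
    _ = 4 ^ z * 4 ^ N * 1 := by rw [pow_add, mul_one]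
    _ ≤ _ := Nat.mul_le_mul (Nat.mul_le_mul_right _ (Nat.pow_le_pow_right (by norm_num)
        (by omega))) (Nat.one_le_pow _ _ (by norm_num))

theorem natDegX : (X : ℤ[X]).natDegree = 1 := natDegree_X

/-- the moments for good data -/
theorem moments {z g m : ℕ} (hz4 : 4 ≤ z) (hz : Gd (X : ℤ[X]) z)
    (hg : 1 ≤ g) (hM : Mer (X : ℤ[X]) g) (hU : Utw (X : ℤ[X]) z)
    (hκk : ∀ i : XP.Ik m, (XP.κk (RK.kp (-1) (-4)) i).natAbs ≤ z)
    (hk : 2 * (X : ℤ[X]).natDegree ≤ 4 ^ m) (hk2 : 2 * g ≤ 4 ^ m) :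
    ∃ (X0 : ℕ) (B : ℝ), ∀ (x : ℤ) (Y : ℕ), (x = 0 ∧ 2 ≤ Y) → X0 ≤ Y →
      ∑ t ∈ NX.II (X : ℤ[X]) x Y, Rt t ^ m ≤ B * Y := by
  classical
  have hz2 : 2 ≤ z := by omega
  have hκ0 : ∀ k, RK.kp (-1) (-4) k ≠ 0 := RK.fin3 _ (by decide) (by decide) (by decide)
  have hκz : ∀ k, (RK.kp (-1) (-4) k).natAbs ≤ z :=
    RK.fin3 _ (by rw [RK.kp0]; norm_num; omega) (by rw [RK.kp1]; norm_num; omega)
      (by rw [RK.kp2]; norm_num; omega)
  obtain ⟨C', hC'⟩ := avg_bound
    (Pool.Agent.W655.RK.blw_of (_root_.W37.RK.bl_of Pool.Agent.W505.RK.ls)) hz hg hM hU hκ0 hκz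
    hκk hk hk2
  obtain ⟨C, K, y0, hC0, hK1, hcn⟩ := CN.count hz hM
  refine NX.nt (G := NBk m (RK.kp (-1) (-4)))
    (R := fun t => Rt t ^ m)
    (Q := fun x Y => x = 0 ∧ 2 ≤ Y) (A := 4 ^ m) (C := C * (4 ^ (z + 2)) ^ m)
    (D := 4 ^ m) (C' := C') (g := g) (K := K) (y0 := y0)
    hz (NBk_nonneg m _) (fun t => pow_nonneg (Rt_nonneg t) m) (by positivity) (by positivity)
    (one_le_pow₀ (by norm_num))
    (fun y s e hse => subk m hz2 hκ0 hκz hse) hC' ?_
  intro x Y y Y' k hQ hy0 hzy hyK hXk s v u hs hv hu hsvu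
  obtain ⟨hx, hY⟩ := hQ
  set S := (NX.II (X : ℤ[X]) x Y).filter (fun t : ℤ => t1 X z y t = s ∧ t2 X z y t = v ∧
    (u : ℤ) ∣ (X : ℤ[X]).eval t) with hS
  set G : Finset ℕ → ℝ := fun E => (NL s (Run7.h69.LE (RK.kp (-1) (-4)) E) : ℝ) ^ m with hG
  have hG0 : ∀ E, 0 ≤ G E := fun E => by simp only [hG]; positivity
  have h1 : ∀ t ∈ S, Rt t ^ m ≤
      (4 ^ (z + 2)) ^ m * (4 ^ m) ^ k * (4 ^ m) ^ v.primeFactors.card * G (ng X t s) := by
    intro t ht
    rw [hS, mem_filter] at ht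
    obtain ⟨ht1, hts, htv, _⟩ := ht
    unfold NX.II at ht1
    rw [mem_filter, mem_Ioc, hx] at ht1
    have hr' : Rt t ≤ 4 ^ (z + 2) * 4 ^ k * 4 ^ (v.primeFactors.card) *
        (NL s (Run7.h69.LE (RK.kp (-1) (-4)) (ng X t s)) : ℝ) := by
      unfold Rt
      split_ifs with hc
      · have hN : t.natAbs < (y + 1) ^ k := by
          refine lt_of_le_of_lt ?_ hXk
          omega
        have hr := rank (z := z) (y := y) (N := k) hc.1 hc.2.1 hc.2.2 hN
        rw [hts, htv] at hr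
        exact_mod_cast hr
      · positivity
    refine (pow_le_pow_left₀ (Rt_nonneg t) hr' m).trans (le_of_eq ?_)
    simp only [hG]
    rw [mul_pow, mul_pow, mul_pow]
    congr 2
    · congr 1
      rw [← pow_mul, ← pow_mul, mul_comm]
    · rw [← pow_mul, ← pow_mul, mul_comm]
  have hneg : ∀ t ∈ S, ng X t s ∈ s.primeFactors.powerset := by
    intro t _
    rw [mem_powerset]
    exact filter_subset _ _
  have h2 : ∑ t ∈ S, G (ng X t s) =
      ∑ E ∈ s.primeFactors.powerset,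
        ((S.filter (fun t : ℤ => ng X t s = E)).card : ℝ) * G E := by
    rw [← sum_fiberwise_of_maps_to hneg]
    refine sum_congr rfl fun E _ => ?_
    rw [← nsmul_eq_mul, ← sum_const]
    refine sum_congr rfl fun t ht => ?_
    rw [(mem_filter.1 ht).2]
  set Q : ℝ := C * Y * (1 / 2) ^ s.primeFactors.card * gm (br X) s * (gm (br X) v / v) *
    gm (ru X) u / (Real.log y) ^ g with hQ
  have h3 : ∀ E ∈ s.primeFactors.powerset,
      ((S.filter (fun t : ℤ => ng X t s = E)).card : ℝ) * G E ≤ Q * G E := by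
    intro E _
    refine mul_le_mul_of_nonneg_right ?_ (hG0 E)
    refine le_trans ?_ (hcn x Y y Y' hy0 hzy hyK s v u hs hv hu hsvu E)
    have h4 : S.filter (fun t : ℤ => ng X t s = E) ⊆
        (Ioc x (x + Y)).filter (fun t : ℤ => t1 X z y t = s ∧ t2 X z y t = v ∧
          (u : ℤ) ∣ (X : ℤ[X]).eval t ∧ ng X t s = E) := by
      intro t ht
      rw [mem_filter, hS, mem_filter] at ht
      unfold NX.II at ht
      rw [mem_filter] at ht
      rw [mem_filter]
      exact ⟨ht.1.1.1, ht.1.2.1, ht.1.2.2.1, ht.1.2.2.2, ht.2⟩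
    exact_mod_cast card_le_card h4
  calc ∑ t ∈ S, Rt t ^ m
      ≤ ∑ t ∈ S, (4 ^ (z + 2)) ^ m * (4 ^ m) ^ k * (4 ^ m) ^ v.primeFactors.card *
        G (ng X t s) := sum_le_sum h1
    _ = (4 ^ (z + 2)) ^ m * (4 ^ m) ^ k * (4 ^ m) ^ v.primeFactors.card *
          ∑ E ∈ s.primeFactors.powerset,
            ((S.filter (fun t : ℤ => ng X t s = E)).card : ℝ) * G E := by
        rw [← mul_sum, h2]
    _ ≤ (4 ^ (z + 2)) ^ m * (4 ^ m) ^ k * (4 ^ m) ^ v.primeFactors.card *
          ∑ E ∈ s.primeFactors.powerset, Q * G E :=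
        mul_le_mul_of_nonneg_left (sum_le_sum h3) (by positivity)
    _ = _ := by
        have e1 : NBk m (RK.kp (-1) (-4)) s = (1 / 2) ^ s.primeFactors.card *
            ∑ E ∈ s.primeFactors.powerset, G E := rfl
        have e2 : NX.bV (X : ℤ[X]) (4 ^ m) v = (4 ^ m) ^ v.primeFactors.card *
            (gm (br X) v / v) := rfl
        rw [← mul_sum, e1, e2, hQ]
        ring

end Pool.Agent.Run7.h289.MO
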