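import Mathlib

/-!
# Convergence of the averages from a law and a bounded second moment
-/

set_option autoImplicit false

namespace Pool.Agent.Run7.h289.MO

open Finset Filter Topology

/-- **uniform integrability** -/
theorem ui {ι : Type} [DecidableEq ι] (A : ℕ → Finset ℕ) (q : ℕ → ι) (p f : ι → ℝ)
    (hA : ∀ᶠ X in atTop, 0 < (A X).card)
    (hp : ∀ i, Tendsto (fun X : ℕ => (((A X).filter fun m => q m = i).card : ℝ) /
      ((A X).card : ℝ)) atTop (𝓝 (p i)))
    (h1 : HasSum p 1) (hp0 : ∀ i, 0 ≤ p i) (hf : ∀ i, 0 ≤ f i) (C : ℝ)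
    (hC : ∀ᶠ X in atTop, ∑ m ∈ A X, f (q m) ^ 2 ≤ C * ((A X).card : ℝ)) :
    Summable (fun i => f i * p i) ∧
    Tendsto (fun X : ℕ => (∑ m ∈ A X, f (q m)) / ((A X).card : ℝ)) atTop
      (𝓝 (∑' i, f i * p i)) := by
  -- the finite parts
  have hpart : ∀ (s : Finset ι) (X : ℕ), ∑ m ∈ (A X).filter (fun m => q m ∈ s), f (q m) =
      ∑ i ∈ s, f i * (((A X).filter fun m => q m = i).card : ℝ) := by
    intro s X
    rw [← sum_fiberwise_of_maps_to (s := (A X).filter fun m => q m ∈ s) (t := s) (g := q)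
      (fun m hm => (mem_filter.1 hm).2)]
    refine sum_congr rfl fun i hi => ?_
    have e : ((A X).filter (fun m => q m ∈ s)).filter (fun m => q m = i) =
        (A X).filter fun m => q m = i := by
      ext m
      rw [mem_filter, mem_filter, mem_filter]
      constructor
      · exact fun h => ⟨h.1.1, h.2⟩
      · exact fun h => ⟨⟨h.1, by rw [h.2]; exact hi⟩, h.2⟩
    rw [e, sum_congr rfl fun m hm => by rw [(mem_filter.1 hm).2], sum_const, nsmul_eq_mul,
      mul_comm]
  have hlim : ∀ s : Finset ι, Tendsto (fun X : ℕ =>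
      (∑ m ∈ (A X).filter (fun m => q m ∈ s), f (q m)) / ((A X).card : ℝ)) atTop
      (𝓝 (∑ i ∈ s, f i * p i)) := by
    intro s
    have h2 := tendsto_finsetSum s fun i _ => (hp i).const_mul (f i)
    refine h2.congr fun X => ?_
    rw [hpart, sum_div]
    exact sum_congr rfl fun i _ => by rw [mul_div_assoc]
  have hone : ∀ s : Finset ι, Tendsto (fun X : ℕ =>
      (((A X).filter (fun m => q m ∈ s)).card : ℝ) / ((A X).card : ℝ)) atTop
      (𝓝 (∑ i ∈ s, p i)) := by
    intro s
    have h2 := tendsto_finsetSum s fun i _ => hp i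
    refine h2.congr fun X => ?_
    rw [← sum_div]
    congr 1
    rw [card_eq_sum_card_fiberwise (f := q) (s := (A X).filter (fun m => q m ∈ s)) (t := s)
      (fun m hm => mem_coe.2 (mem_filter.1 (mem_coe.1 hm)).2)]
    push_cast
    refine sum_congr rfl fun i hi => ?_
    congr 2
    ext m
    rw [mem_filter, mem_filter, mem_filter]
    constructor
    · exact fun h => ⟨⟨h.1, by rw [h.2]; exact hi⟩, h.2⟩
    · exact fun h => ⟨h.1.1, h.2⟩
  -- the total average is bounded
  have hC0 : 0 ≤ C := by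
    obtain ⟨X, hX, hX'⟩ := (hA.and hC).exists
    have h2 : (0 : ℝ) ≤ ∑ m ∈ A X, f (q m) ^ 2 := sum_nonneg fun m _ => sq_nonneg _
    have h3 : (0 : ℝ) < (A X).card := by exact_mod_cast hX
    by_contra h4
    have h5 := mul_neg_of_neg_of_pos (not_le.1 h4) h3
    linarith
  have hbd : ∀ s : Finset ι, ∑ i ∈ s, f i * p i ≤ 1 + C := by
    intro s
    refine le_of_tendsto (hlim s) ?_
    filter_upwards [hA, hC] with X hX hX'
    have h3 : (0 : ℝ) < (A X).card := by exact_mod_cast hX
    rw [div_le_iff₀ h3]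
    calc ∑ m ∈ (A X).filter (fun m => q m ∈ s), f (q m) ≤ ∑ m ∈ A X, f (q m) :=
          sum_le_sum_of_subset_of_nonneg (filter_subset _ _) fun m _ _ => hf _
      _ ≤ ∑ m ∈ A X, (1 + f (q m) ^ 2) := sum_le_sum fun m _ => by nlinarith [sq_nonneg (f (q m) - 1), hf (q m)]
      _ = (A X).card + ∑ m ∈ A X, f (q m) ^ 2 := by
          rw [sum_add_distrib, sum_const, nsmul_eq_mul, mul_one]
      _ ≤ (1 + C) * (A X).card := by linarith
  have hsum : Summable (fun i => f i * p i) :=
    summable_of_sum_le (fun i => mul_nonneg (hf i) (hp0 i)) hbd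
  refine ⟨hsum, ?_⟩
  set L := ∑' i, f i * p i with hL
  rw [Metric.tendsto_atTop]
  intro ε hε
  set T : ℝ := 4 * (C + 1) / ε with hT
  have hT0 : 0 < T := by positivity
  -- the finite set
  obtain ⟨s1, hs1⟩ : ∃ s1 : Finset ι, ∀ s, s1 ⊆ s → L - ε / 4 < ∑ i ∈ s, f i * p i := by
    have h2 := (tendsto_order.1 (show Tendsto (fun s : Finset ι => ∑ i ∈ s, f i * p i) atTop (𝓝 L)
      from hsum.hasSum)).1 (L - ε / 4) (by linarith)
    exact eventually_atTop.1 h2
  obtain ⟨s2, hs2⟩ : ∃ s2 : Finset ι, ∀ s, s2 ⊆ s → 1 - ε / (8 * T) < ∑ i ∈ s, p i := by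
    have h2 := (tendsto_order.1 (show Tendsto (fun s : Finset ι => ∑ i ∈ s, p i) atTop (𝓝 1)
      from h1)).1 (1 - ε / (8 * T)) (by
        have : 0 < ε / (8 * T) := by positivity
        linarith)
    exact eventually_atTop.1 h2
  set s := s1 ∪ s2 with hs
  have e1 := hs1 s subset_union_left
  have e2 := hs2 s subset_union_right
  have e3 : ∑ i ∈ s, f i * p i ≤ L := hsum.sum_le_tsum s fun i _ => mul_nonneg (hf i) (hp0 i)
  have a1 := (tendsto_order.1 (hlim s)).1 (∑ i ∈ s, f i * p i - ε / 4) (by linarith)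
  have a2 := (tendsto_order.1 (hlim s)).2 (∑ i ∈ s, f i * p i + ε / 4) (by linarith)
  have a3 := (tendsto_order.1 (hone s)).1 (1 - ε / (8 * T)) e2
  obtain ⟨X0, hX0⟩ := eventually_atTop.1 (hA.and (hC.and (a1.and (a2.and a3))))
  refine ⟨X0, fun X hX => ?_⟩
  obtain ⟨b1, b2, b3, b4, b5⟩ := hX0 X hX
  have hpos : (0 : ℝ) < (A X).card := by exact_mod_cast b1
  have hsplit := sum_filter_add_sum_filter_not (A X) (fun m => q m ∈ s) fun m => f (q m)
  have hrest0 : 0 ≤ ∑ m ∈ (A X).filter (fun m => q m ∉ s), f (q m) :=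
    sum_nonneg fun m _ => hf _
  have hcard : (((A X).filter (fun m => q m ∈ s)).card : ℝ) +
      ((A X).filter (fun m => q m ∉ s)).card = (A X).card := by
    exact_mod_cast card_filter_add_card_filter_not (s := A X) (fun m => q m ∈ s)
  have hrest : ∑ m ∈ (A X).filter (fun m => q m ∉ s), f (q m) ≤
      T * ((A X).filter (fun m => q m ∉ s)).card + C / T * (A X).card := by
    calc ∑ m ∈ (A X).filter (fun m => q m ∉ s), f (q m)
        ≤ ∑ m ∈ (A X).filter (fun m => q m ∉ s), (T + f (q m) ^ 2 / T) := by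
          refine sum_le_sum fun m _ => ?_
          have h5 : f (q m) * T ≤ T * T + f (q m) ^ 2 := by
            nlinarith [sq_nonneg (f (q m) - T), hf (q m), mul_nonneg (hf (q m)) hT0.le]
          have h6 : T + f (q m) ^ 2 / T = (T * T + f (q m) ^ 2) / T := by
            field_simp
          rw [h6, le_div_iff₀ hT0]
          exact h5
      _ = T * ((A X).filter (fun m => q m ∉ s)).card +
          (∑ m ∈ (A X).filter (fun m => q m ∉ s), f (q m) ^ 2) / T := by
          rw [sum_add_distrib, sum_const, nsmul_eq_mul, sum_div, mul_comm]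
      _ ≤ T * ((A X).filter (fun m => q m ∉ s)).card + (C * (A X).card) / T := by
          refine add_le_add le_rfl (div_le_div_of_nonneg_right (le_trans ?_ b2) hT0.le)
          exact sum_le_sum_of_subset_of_nonneg (filter_subset _ _) fun m _ _ => sq_nonneg _
      _ = _ := by ring
  have c1 : (((A X).filter (fun m => q m ∉ s)).card : ℝ) / (A X).card < ε / (8 * T) := by
    have h5 : (((A X).filter (fun m => q m ∉ s)).card : ℝ) / (A X).card =
        1 - (((A X).filter (fun m => q m ∈ s)).card : ℝ) / (A X).card := by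
      rw [eq_sub_iff_add_eq, ← add_div, add_comm, hcard, div_self hpos.ne']
    rw [h5]
    linarith
  have c2 : (∑ m ∈ (A X).filter (fun m => q m ∉ s), f (q m)) / (A X).card ≤ ε / 8 + ε / 4 := by
    have h5 : (∑ m ∈ (A X).filter (fun m => q m ∉ s), f (q m)) / (A X).card ≤
        T * ((((A X).filter (fun m => q m ∉ s)).card : ℝ) / (A X).card) + C / T := by
      rw [div_le_iff₀ hpos]
      refine hrest.trans (le_of_eq ?_)
      field_simp
    have h6 : T * ((((A X).filter (fun m => q m ∉ s)).card : ℝ) / (A X).card) ≤ ε / 8 := by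
      calc T * ((((A X).filter (fun m => q m ∉ s)).card : ℝ) / (A X).card) ≤ T * (ε / (8 * T)) :=
            mul_le_mul_of_nonneg_left c1.le hT0.le
        _ = ε / 8 := by field_simp
    have h7 : C / T ≤ ε / 4 := by
      rw [div_le_iff₀ hT0, hT]
      have : ε / 4 * (4 * (C + 1) / ε) = C + 1 := by field_simp
      rw [this]
      linarith
    linarith
  have c3 : 0 ≤ (∑ m ∈ (A X).filter (fun m => q m ∉ s), f (q m)) / (A X).card :=
    div_nonneg hrest0 hpos.le
  rw [Real.dist_eq, ← hsplit, add_div, abs_lt]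
  constructor <;> linarith

/-- a product is bounded by a sum of powers -/
theorem prod_le_sum {M : ℕ} (hM : 0 < M) (x : Fin M → ℝ) (hx : ∀ i, 0 ≤ x i) :
    ∏ i, x i ≤ ∑ i, x i ^ M := by
  have : Nonempty (Fin M) := ⟨⟨0, hM⟩⟩
  obtain ⟨j, -, hj⟩ := exists_max_image (univ : Finset (Fin M)) x univ_nonempty
  calc ∏ i, x i ≤ ∏ _i : Fin M, x j := prod_le_prod (fun i _ => hx i) fun i hi => hj i hi
    _ = x j ^ M := by rw [prod_const, card_univ, Fintype.card_fin]
    _ ≤ ∑ i, x i ^ M := single_le_sum (f := fun i => x i ^ M) (fun i _ => pow_nonneg (hx i) M)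
        (mem_univ j)

end Pool.Agent.Run7.h289.MO
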