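import Mathlib
import Pool.Agent.Run7.h289.MO.Mo
import Pool.Agent.Run7.h289.MO.Ga
import Pool.Agent.Run7.h289.MO.Ui
import Pool.Agent.Run7.h289.D18.Jw

/-!
# The averages over the classes
-/

set_option autoImplicit false
set_option linter.unusedSectionVars false

namespace Pool.Agent.Run7.h289.MO

open Finset Filter Topology
open Run7.h69
open Pool.Agent.Run7.h238.J (tw)
open Run7.h843.L (gk gk_mem)
open Pool.Agent.Run7.h289.D18

/-- the moments, long intervals -/
theorem mom (k : ℕ) : ∃ (X0 : ℕ) (B : ℝ), ∀ Y : ℕ, X0 ≤ Y →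
    ∑ t ∈ NX.II (Polynomial.X : Polynomial ℤ) 0 Y, Rt t ^ k ≤ B * Y := by
  classical
  have hirr : Irreducible (Polynomial.X : Polynomial ℤ) := Polynomial.irreducible_X
  obtain ⟨hsep, g, z0, hg1, hg2, hM, hU⟩ := UT.sqf (Polynomial.X : Polynomial ℤ) hirr.squarefree
    Polynomial.X_ne_zero
  obtain ⟨z1, hz1⟩ := UT.good (Polynomial.X : Polynomial ℤ) Polynomial.X_ne_zero hsep
  have hdeg : (Polynomial.X : Polynomial ℤ).natDegree = 1 := Polynomial.natDegree_X
  rw [hdeg] at hg1 hg2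
  set m : ℕ := k + 2 with hm
  have hm4 : 2 ≤ 4 ^ m := by
    calc 2 ≤ m := by omega
      _ ≤ 4 ^ m := (Nat.lt_pow_self (by norm_num)).le
  set z : ℕ := z0 + z1 + 4 +
    ∑ i : XP.Ik m, (XP.κk (Run7.h69.RK.kp (-1) (-4)) i).natAbs with hz
  obtain ⟨X0, B, hB⟩ := moments (z := z) (g := g) (m := m) (by omega) (hz1 z (by omega))
    (hg1 (by norm_num)) hM (hU z (by omega))
    (fun i => by
      have h1 := single_le_sum (f := fun i : XP.Ik m =>
        (XP.κk (Run7.h69.RK.kp (-1) (-4)) i).natAbs)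
        (fun _ _ => Nat.zero_le _) (mem_univ i)
      omega) (by rw [hdeg]; omega) (by omega)
  refine ⟨X0 + 2, 1 + B, fun Y hY => ?_⟩
  have h1 := hB 0 Y ⟨rfl, by omega⟩ (by omega)
  have h2 : ∀ x : ℝ, 0 ≤ x → x ^ k ≤ 1 + x ^ m := by
    intro x hx
    rcases le_total x 1 with h | h
    · have h3 : x ^ k ≤ 1 := pow_le_one₀ hx h
      have h4 : 0 ≤ x ^ m := pow_nonneg hx m
      linarith
    · have h3 : x ^ k ≤ x ^ m := pow_le_pow_right₀ h (by omega)
      linarith
  calc ∑ t ∈ NX.II (Polynomial.X : Polynomial ℤ) 0 Y, Rt t ^ k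
      ≤ ∑ t ∈ NX.II (Polynomial.X : Polynomial ℤ) 0 Y, (1 + Rt t ^ m) :=
        sum_le_sum fun t _ => h2 _ (Rt_nonneg t)
    _ = (NX.II (Polynomial.X : Polynomial ℤ) 0 Y).card +
        ∑ t ∈ NX.II (Polynomial.X : Polynomial ℤ) 0 Y, Rt t ^ m := by
        rw [sum_add_distrib, sum_const, nsmul_eq_mul, mul_one]
    _ ≤ Y + B * Y := by
        refine add_le_add ?_ h1
        have h3 : (NX.II (Polynomial.X : Polynomial ℤ) 0 Y).card ≤ Y := by
          unfold NX.II
          refine (card_filter_le _ _).trans ?_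
          rw [Int.card_Ioc]
          simp
        exact_mod_cast h3
    _ = _ := by ring

open scoped Classical in
/-- **the moments** -/
theorem sum_Nf (k : ℕ) : ∃ C : ℝ, 0 ≤ C ∧ ∀ X : ℕ, 1 ≤ X →
    ∑ n ∈ (Icc 1 X).filter (fun n => Squarefree n ∧ n % 2 = 1), (Nf n : ℝ) ^ k ≤ C * X := by
  obtain ⟨X0, B, hB⟩ := mom k
  have key : ∀ X : ℕ, ∑ n ∈ (Icc 1 X).filter (fun n => Squarefree n ∧ n % 2 = 1),
      (Nf n : ℝ) ^ k ≤ ∑ t ∈ NX.II (Polynomial.X : Polynomial ℤ) 0 X, Rt t ^ k := by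
    intro X
    have h1 : ∑ n ∈ (Icc 1 X).filter (fun n => Squarefree n ∧ n % 2 = 1), (Nf n : ℝ) ^ k =
        ∑ t ∈ ((Icc 1 X).filter (fun n => Squarefree n ∧ n % 2 = 1)).image
          (fun n : ℕ => (n : ℤ)), Rt t ^ k := by
      rw [sum_image fun a _ b _ h => Nat.cast_injective h]
      refine sum_congr rfl fun n hn => ?_
      rw [mem_filter, mem_Icc] at hn
      unfold Rt
      rw [Int.natAbs_natCast, if_pos ⟨hn.2.1, hn.2.2, by omega⟩]
      rfl
    rw [h1]
    refine sum_le_sum_of_subset_of_nonneg ?_ fun t _ _ => pow_nonneg (Rt_nonneg t) k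
    intro t ht
    obtain ⟨n, hn, rfl⟩ := mem_image.1 ht
    rw [mem_filter, mem_Icc] at hn
    unfold NX.II
    rw [mem_filter, mem_Ioc, Polynomial.eval_X]
    omega
  set S : ℝ := ∑ t ∈ NX.II (Polynomial.X : Polynomial ℤ) 0 X0, Rt t ^ k with hS
  have hS0 : 0 ≤ S := sum_nonneg fun t _ => pow_nonneg (Rt_nonneg t) k
  refine ⟨|B| + S, by positivity, fun X hX => (key X).trans ?_⟩
  have hXr : (1 : ℝ) ≤ X := by exact_mod_cast hX
  rcases Nat.lt_or_ge X X0 with h | h
  · have h2 : ∑ t ∈ NX.II (Polynomial.X : Polynomial ℤ) 0 X, Rt t ^ k ≤ S := by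
      refine sum_le_sum_of_subset_of_nonneg ?_ fun t _ _ => pow_nonneg (Rt_nonneg t) k
      unfold NX.II
      refine filter_subset_filter _ fun t ht => ?_
      rw [mem_Ioc] at ht ⊢
      omega
    have h3 : 0 ≤ |B| := abs_nonneg _
    nlinarith
  · have h2 := hB X h
    have h3 := le_abs_self B
    nlinarith

theorem tw_inj {a n n' : ℕ} (ha : Squarefree a) (hn : Squarefree n) (hn' : Squarefree n')
    (h : tw a n = tw a n') : n = n' := by
  have h1 := (Pool.Agent.Run7.h424.J.tw_spec ha hn).2.1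
  have h2 := (Pool.Agent.Run7.h424.J.tw_spec ha hn').2.1
  rw [h, h2] at h1
  have h3 : n.primeFactors = n'.primeFactors := (symmDiff_left_injective a.primeFactors h1).symm
  rw [← Nat.prod_primeFactors_of_squarefree hn, h3, Nat.prod_primeFactors_of_squarefree hn']

theorem tw_le {a n : ℕ} : tw a n ≤ a * n := by
  unfold tw
  exact Nat.div_le_self _ _

theorem tw_odd {a n : ℕ} (ha : a % 2 = 1) (hn : n % 2 = 1) : tw a n % 2 = 1 := by
  have h := tw8 (n := n) ha
  have h1 : a * n % 2 = 1 := by rw [Nat.mul_mod, ha, hn]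
  omega

open scoped Classical in
/-- the moments for a multiplier -/
theorem sum_tw {a : ℕ} (ha : Squarefree a) (ha2 : a % 2 = 1) (k : ℕ) :
    ∃ C : ℝ, 0 ≤ C ∧ ∀ X : ℕ, 1 ≤ X →
    ∑ n ∈ (Icc 1 X).filter (fun n => Squarefree n ∧ n % 2 = 1), (Nf (tw a n) : ℝ) ^ k ≤ C * X := by
  obtain ⟨C, hC0, hC⟩ := sum_Nf k
  refine ⟨C * a, by positivity, fun X hX => ?_⟩
  have ha1 : 1 ≤ a := Nat.one_le_iff_ne_zero.2 ha.ne_zero
  have h1 : ∑ n ∈ (Icc 1 X).filter (fun n => Squarefree n ∧ n % 2 = 1), (Nf (tw a n) : ℝ) ^ k =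
      ∑ m ∈ ((Icc 1 X).filter (fun n => Squarefree n ∧ n % 2 = 1)).image (tw a),
        (Nf m : ℝ) ^ k := by
    rw [sum_image]
    intro n hn n' hn' h
    have hn := (mem_filter.1 (mem_coe.1 hn)).2.1
    have hn' := (mem_filter.1 (mem_coe.1 hn')).2.1
    exact tw_inj ha hn hn' h
  rw [h1]
  calc ∑ m ∈ ((Icc 1 X).filter (fun n => Squarefree n ∧ n % 2 = 1)).image (tw a), (Nf m : ℝ) ^ k
      ≤ ∑ m ∈ (Icc 1 (a * X)).filter (fun n => Squarefree n ∧ n % 2 = 1), (Nf m : ℝ) ^ k := by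
        refine sum_le_sum_of_subset_of_nonneg ?_ fun m _ _ => by positivity
        intro m hm
        obtain ⟨n, hn, rfl⟩ := mem_image.1 hm
        rw [mem_filter, mem_Icc] at hn ⊢
        have h2 := tw_sqf ha hn.2.1
        refine ⟨⟨Nat.one_le_iff_ne_zero.2 h2.ne_zero,
          tw_le.trans (Nat.mul_le_mul_left _ hn.1.2)⟩, h2, tw_odd ha2 hn.2.2⟩
    _ ≤ C * ((a * X : ℕ) : ℝ) := hC (a * X) (Nat.mul_pos ha1 hX)
    _ = _ := by push_cast; ring

section

variable {M : ℕ} {a : Fin M → ℕ} {F : Fin M → Finset (ℤ × ℤ × ℤ)} {N b : ℕ}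

/-- the vector of the coranks -/
noncomputable def qq (a : Fin M → ℕ) (n : ℕ) (i : Fin M) : ℕ := Nat.log 2 (Nf (tw (a i) n)) - 1

theorem qq_spec (h : Hyp a F) {n : ℕ} (hn : CmJ a F n) (i : Fin M) :
    Nf (tw (a i) n) = 2 ^ (qq a n i + 1) := by
  obtain ⟨t, ht⟩ := h.ne i
  have h1 := hn.2 i t ht
  obtain ⟨k, hk, -⟩ := corank (h.tri i t ht).pr h1
  have e : (t.2.2 * (tw (a i) n : ℤ)).natAbs = tw (a i) n := by
    rcases (h.tri i t ht).sg with h2 | h2
    · rw [h2, one_mul, Int.natAbs_natCast]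
    · rw [h2, neg_one_mul, Int.natAbs_neg, Int.natAbs_natCast]
  rw [e] at hk
  have hk' : Nf (tw (a i) n) = 2 ^ (k + 1) := hk
  unfold qq
  rw [hk', Nat.log_pow (by norm_num)]
  simp

theorem odd_cls (h : Hyp a F) {n : ℕ} (hn : CmJ a F n) : n % 2 = 1 := by
  have h1 := ((cmJ_iff (N := 1) (b := 0) h hn n).1 ⟨hn, Nat.mod_one n⟩).2.1
  omega

open scoped Classical in
/-- the class up to `X` -/
noncomputable def AX (a : Fin M → ℕ) (F : Fin M → Finset (ℤ × ℤ × ℤ)) (N b X : ℕ) : Finset ℕ :=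
  (range (X + 1)).filter fun n => CmJ a F n ∧ n % N = b

open scoped Classical in
theorem mem_AX {X n : ℕ} : n ∈ AX a F N b X ↔ n ≤ X ∧ CmJ a F n ∧ n % N = b := by
  unfold AX
  rw [mem_filter, mem_range, Nat.lt_succ_iff]

open scoped Classical in
/-- **the averages** -/
theorem avg (h : Hyp a F) (hN : 0 < N) (hbc : b.Coprime N)
    (hex : ∃ n, CmJ a F n ∧ n % N = b) (e : Fin M → ℕ) :
    Tendsto (fun X : ℕ => (∑ n ∈ AX a F N b X, ∏ i, (2 : ℝ) ^ (e i * qq a n i)) /
      ((AX a F N b X).card : ℝ)) atTop (𝓝 (∏ i, (Ga (e i) : ℝ))) := by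
  obtain ⟨α, hα, hlow⟩ := lowJ h hN hbc hex
  have hcard : ∀ X : ℕ, nm (fun n => CmJ a F n ∧ n % N = b) (fun _ => True) X =
      (AX a F N b X).card := by
    intro X
    unfold nm
    refine Nat.subtype_card _ fun n => ?_
    rw [mem_AX, and_true]
  have hcardr : ∀ (X : ℕ) (r : Fin M → ℕ), nm (fun n => CmJ a F n ∧ n % N = b)
      (fun n => ∀ i, Nf (tw (a i) n) = 2 ^ (r i + 1)) X =
      ((AX a F N b X).filter fun n => qq a n = r).card := by
    intro X r
    unfold nm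
    refine Nat.subtype_card _ fun n => ?_
    rw [mem_filter, mem_AX, and_assoc]
    refine and_congr_right fun _ => and_congr_right fun hc => ?_
    constructor
    · rintro rfl i
      exact qq_spec h hc.1 i
    · intro h2
      funext i
      have h3 := (qq_spec h hc.1 i).symm.trans (h2 i)
      have h4 := Nat.pow_right_injective le_rfl h3
      omega
  have hone : ∀ i, 1 ≤ a i := fun i => Nat.one_le_iff_ne_zero.2 (h.sqf i).ne_zero
  choose C hC0 hC using fun i => sum_tw (h.sqf i) (by have := h.one i; omega) (2 * e i * M)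
  have h1 := ui (A := AX a F N b) (q := qq a) (p := fun r : Fin M → ℕ => ∏ i, gk (r i))
    (f := fun r : Fin M → ℕ => ∏ i, (2 : ℝ) ^ (e i * r i))
    (by
      filter_upwards [hlow, eventually_ge_atTop 1] with X h2 h3
      rw [hcard] at h2
      have h4 : (0 : ℝ) < (AX a F N b X).card := by
        refine lt_of_lt_of_le ?_ h2
        have : (0 : ℝ) < X := by exact_mod_cast h3
        positivity
      exact_mod_cast h4)
    (fun r => by
      have h2 := lawJ h hN hbc hex r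
      unfold Prp at h2
      refine h2.congr fun X => ?_
      rw [hcard, hcardr])
    (hasSum_prod_gk M) (fun r => prod_nonneg fun i _ => (gk_mem (r i)).1)
    (fun r => prod_nonneg fun i _ => by positivity) ((∑ i, C i) / α)
    (by
      filter_upwards [hlow, eventually_ge_atTop 1] with X h2 h3
      rw [hcard] at h2
      have h5 : ∀ n ∈ AX a F N b X, (∏ i, (2 : ℝ) ^ (e i * qq a n i)) ^ 2 ≤
          ∑ i, (Nf (tw (a i) n) : ℝ) ^ (2 * e i * M) := by
        intro n hn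
        have hc := (mem_AX.1 hn).2.1
        rw [← prod_pow]
        refine (prod_le_sum h.pos _ fun i => by positivity).trans (sum_le_sum fun i _ => ?_)
        rw [qq_spec h hc i]
        push_cast
        rw [← pow_mul, ← pow_mul, ← pow_mul]
        refine pow_le_pow_right₀ (by norm_num) ?_
        have e1 : e i * qq a n i * (2 * M) = qq a n i * (2 * e i * M) := by ring
        rw [e1]
        exact Nat.mul_le_mul_right _ (Nat.le_succ _)
      calc ∑ n ∈ AX a F N b X, (∏ i, (2 : ℝ) ^ (e i * qq a n i)) ^ 2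
          ≤ ∑ n ∈ AX a F N b X, ∑ i, (Nf (tw (a i) n) : ℝ) ^ (2 * e i * M) := sum_le_sum h5
        _ = ∑ i, ∑ n ∈ AX a F N b X, (Nf (tw (a i) n) : ℝ) ^ (2 * e i * M) := sum_comm
        _ ≤ ∑ i, C i * X := by
            refine sum_le_sum fun i _ => le_trans ?_ (hC i X h3)
            refine sum_le_sum_of_subset_of_nonneg (fun n hn => ?_) fun n _ _ => by positivity
            rw [mem_AX] at hn
            rw [mem_filter, mem_Icc]
            exact ⟨⟨Nat.one_le_iff_ne_zero.2 hn.2.1.1.ne_zero, hn.1⟩, hn.2.1.1,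
              odd_cls h hn.2.1⟩
        _ = (∑ i, C i) * X := by rw [sum_mul]
        _ ≤ (∑ i, C i) / α * ((AX a F N b X).card : ℝ) := by
            rw [div_mul_eq_mul_div, le_div_iff₀ hα, mul_assoc]
            refine mul_le_mul_of_nonneg_left ?_ (sum_nonneg fun i _ => hC0 i)
            rw [mul_comm]
            exact h2)
  have h2 := hasSum_pi (M := M) (fun i k => (2 : ℝ) ^ (e i * k) * gk k)
    (fun i => (Ga (e i) : ℝ)) (fun i k => mul_nonneg (by positivity) (gk_mem k).1)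
    fun i => hasSum_Ga (e i)
  have h3 : (∑' r : Fin M → ℕ, (∏ i, (2 : ℝ) ^ (e i * r i)) * ∏ i, gk (r i)) =
      ∏ i, (Ga (e i) : ℝ) := by
    rw [← h2.tsum_eq]
    exact tsum_congr fun r => prod_mul_distrib.symm
  rw [h3] at h1
  exact h1.2

end

end Pool.Agent.Run7.h289.MO
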